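import Pool.Agent.Results.MP_b87ef1_co.EvenDisproof

/-!
# Families without union or intersection triples: the conjectured values fail in both parities

Two full levels `a < b` of the cube form an admissible family whenever `2 a < b` and
`a + n < 2 b`.  For `n = 7`, `a = 2`, `b = 5` this family has 42 members, while the conjectured
value for the odd number 7 is 40.  Together with the even case: the conjecture fails for all even
`n ≥ 4` and for the odd number `7`.
-/

set_option autoImplicit false

namespace Pool.Agent.Results.MP_b87ef1_co.BothParities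

/-- A family of subsets of `Fin n` is admissible if no three pairwise distinct members
`A, B, C` satisfy `A ∪ B = C` or `A ∩ B = C`. -/
def Admissible {n : ℕ} (F : Finset (Finset (Fin n))) : Prop :=
  ∀ A ∈ F, ∀ B ∈ F, ∀ C ∈ F, A ≠ B → A ≠ C → B ≠ C → A ∪ B ≠ C ∧ A ∩ B ≠ C

/-- `f n` is the largest size of an admissible family of subsets of an `n`-element set. -/
noncomputable def f (n : ℕ) : ℕ :=
  sSup {k : ℕ | ∃ F : Finset (Finset (Fin n)), Admissible F ∧ F.card = k}

/-- The value conjectured for `f n`. -/
def conjectured (n : ℕ) : ℚ :=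
  if Even n then (n.choose (n / 2) : ℚ) + 1
  else ((n : ℚ) + 1) / n * (n.choose ((n - 1) / 2) : ℚ)

lemma f_eq (n : ℕ) : f n = EvenDisproof.f n := rfl

lemma conjectured_eq (n : ℕ) : conjectured n = EvenDisproof.conjectured n := rfl

/-- Two full levels. -/
def lev (n a b : ℕ) : Finset (Finset (Fin n)) :=
  Finset.univ.filter fun S => S.card = a ∨ S.card = b

lemma mem_lev {n a b : ℕ} {S : Finset (Fin n)} : S ∈ lev n a b ↔ S.card = a ∨ S.card = b := by
  simp [lev]

lemma admissible_lev {n a b : ℕ} (h1 : 2 * a < b) (h2 : a + n < 2 * b) :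
    Admissible (lev n a b) := by
  intro A hA B hB C hC hAB hAC hBC
  rw [mem_lev] at hA hB hC
  have hui := Finset.card_union_add_card_inter A B
  have hle : (A ∪ B).card ≤ n := by
    simpa using Finset.card_le_univ (A ∪ B)
  constructor
  · intro h
    have hsA : A ⊂ C := lt_of_le_of_ne (by rw [← h]; exact Finset.subset_union_left) hAC
    have hsB : B ⊂ C := lt_of_le_of_ne (by rw [← h]; exact Finset.subset_union_right) hBC
    have hcA := Finset.card_lt_card hsA
    have hcB := Finset.card_lt_card hsB
    rw [h] at hui
    omega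
  · intro h
    have hsA : C ⊂ A := lt_of_le_of_ne (by rw [← h]; exact Finset.inter_subset_left) (Ne.symm hAC)
    have hsB : C ⊂ B := lt_of_le_of_ne (by rw [← h]; exact Finset.inter_subset_right) (Ne.symm hBC)
    have hcA := Finset.card_lt_card hsA
    have hcB := Finset.card_lt_card hsB
    rw [h] at hui
    omega

lemma card_lev {n a b : ℕ} (hab : a ≠ b) : (lev n a b).card = n.choose a + n.choose b := by
  classical
  have h1 : lev n a b = (Finset.univ : Finset (Fin n)).powersetCard a ∪
      (Finset.univ : Finset (Fin n)).powersetCard b := by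
    ext S
    simp [mem_lev, Finset.mem_powersetCard]
  rw [h1, Finset.card_union_of_disjoint, Finset.card_powersetCard, Finset.card_powersetCard,
    Finset.card_univ, Fintype.card_fin]
  rw [Finset.disjoint_left]
  intro S hS hS'
  rw [Finset.mem_powersetCard] at hS hS'
  exact hab (hS.2.symm.trans hS'.2)

lemma le_f {n : ℕ} {F : Finset (Finset (Fin n))} (h : Admissible F) : F.card ≤ f n :=
  le_csSup (EvenDisproof.bddAbove_sizes n) ⟨F, h, rfl⟩

/-- (1) The set of sizes of admissible families is bounded, so `f n` is attained. (2) For every even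
`n ≥ 4`, `f n ≥ C(n, n/2) + 2`, more than the conjectured value. (3) `f n ≥ C(n, a) + C(n, b)`
whenever `2 a < b` and `a + n < 2 b`. (4) The conjectured value for `n = 7` is `40`, but
`f 7 ≥ 42`. So the conjectured formulas are wrong for even and for odd `n`. -/
theorem result :
    (∀ n : ℕ, ∃ F : Finset (Finset (Fin n)), Admissible F ∧ F.card = f n) ∧
    (∀ n : ℕ, 4 ≤ n → Even n → n.choose (n / 2) + 2 ≤ f n ∧ conjectured n < f n) ∧
    (∀ n a b : ℕ, 2 * a < b → a + n < 2 * b → n.choose a + n.choose b ≤ f n) ∧
    (conjectured 7 = 40 ∧ 42 ≤ f 7) := by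
  have h3 : ∀ n a b : ℕ, 2 * a < b → a + n < 2 * b → n.choose a + n.choose b ≤ f n := by
    intro n a b h1 h2
    rw [← card_lev (n := n) (show a ≠ b by omega)]
    exact le_f (admissible_lev h1 h2)
  refine ⟨fun n => ?_, fun n h4 hev => EvenDisproof.result n h4 hev, h3, ?_, ?_⟩
  · have hne : {k : ℕ | ∃ F : Finset (Finset (Fin n)), Admissible F ∧ F.card = k}.Nonempty :=
      ⟨0, ∅, fun A hA => absurd hA (Finset.notMem_empty A), rfl⟩
    exact Nat.sSup_mem hne (EvenDisproof.bddAbove_sizes n)
  · have h7 : ¬ Even 7 := by decide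
    have hc : (7 : ℕ).choose 3 = 35 := by decide
    rw [conjectured, if_neg h7]
    norm_num [hc]
  · have h := h3 7 2 5 (by norm_num) (by norm_num)
    have hc2 : (7 : ℕ).choose 2 = 21 := by decide
    have hc5 : (7 : ℕ).choose 5 = 21 := by decide
    rw [hc2, hc5] at h
    exact h

end Pool.Agent.Results.MP_b87ef1_co.BothParities
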